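import Mathlib

/-!
# Orientation-preserving diffeomorphisms of the line
-/

open scoped ContDiff

namespace Pool.Agent.R629.Rev

/-- The group `Diffeo⁺(ℝ)` of order-preserving `C^∞` diffeomorphisms of `ℝ`, as a subgroup of the
group of permutations of `ℝ` (the product is composition). -/
def DiffPlus : Subgroup (Equiv.Perm ℝ) where
  carrier := {f | StrictMono f ∧ ContDiff ℝ ∞ f ∧ ContDiff ℝ ∞ (f⁻¹ : Equiv.Perm ℝ)}
  mul_mem' := by
    rintro f g ⟨hf, hf1, hf2⟩ ⟨hg, hg1, hg2⟩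
    refine ⟨?_, ?_, ?_⟩
    · rw [Equiv.Perm.coe_mul]; exact hf.comp hg
    · rw [Equiv.Perm.coe_mul]; exact hf1.comp hg1
    · rw [mul_inv_rev, Equiv.Perm.coe_mul]; exact hg2.comp hf2
  one_mem' := by
    refine ⟨strictMono_id, contDiff_id, ?_⟩
    rw [inv_one]; exact contDiff_id
  inv_mem' := by
    rintro f ⟨hf, hf1, hf2⟩
    refine ⟨?_, hf2, ?_⟩
    · intro x y hxy
      by_contra h
      push Not at h
      have h2 := hf.monotone h
      have e1 : f (f⁻¹ x) = x := f.apply_symm_apply x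
      have e2 : f (f⁻¹ y) = y := f.apply_symm_apply y
      rw [e1, e2] at h2
      exact absurd hxy (not_lt.2 h2)
    · rw [inv_inv]; exact hf1

/-- `g` is reversible in the group `G`. -/
def Reversible {G : Type*} [Group G] (g : G) : Prop := ∃ h : G, h * g * h⁻¹ = g⁻¹

abbrev D := DiffPlus

instance : CoeFun D (fun _ => ℝ → ℝ) := ⟨fun f => ((f : Equiv.Perm ℝ) : ℝ → ℝ)⟩

lemma smono (f : D) : StrictMono f := f.2.1
lemma dlt (f : D) {x y : ℝ} : f x < f y ↔ x < y := (smono f).lt_iff_lt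
lemma dle (f : D) {x y : ℝ} : f x ≤ f y ↔ x ≤ y := (smono f).le_iff_le
lemma smooth (f : D) : ContDiff ℝ ∞ f := f.2.2.1
lemma cont (f : D) : Continuous f := (smooth f).continuous
@[simp] lemma mul_app (f g : D) (x : ℝ) : (f * g) x = f (g x) := rfl
@[simp] lemma one_app (x : ℝ) : (1 : D) x = x := rfl
@[simp] lemma inv_self (f : D) (x : ℝ) : f⁻¹ (f x) = x := (f : Equiv.Perm ℝ).symm_apply_apply x
@[simp] lemma self_inv (f : D) (x : ℝ) : f (f⁻¹ x) = x := (f : Equiv.Perm ℝ).apply_symm_apply x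
lemma inv_lt (f : D) {x y : ℝ} : f⁻¹ x < y ↔ x < f y := by
  rw [← dlt f (x := f⁻¹ x), self_inv]
lemma lt_inv' (f : D) {x y : ℝ} : x < f⁻¹ y ↔ f x < y := by
  rw [← dlt f (y := f⁻¹ y), self_inv]
lemma dinj (f : D) {x y : ℝ} (h : f x = f y) : x = y := (smono f).injective h

lemma dext {f g : D} (h : ∀ x, f x = g x) : f = g := Subtype.ext (Equiv.ext h)

lemma ddiff (f : D) : Differentiable ℝ f := (smooth f).differentiable (by simp)

lemma dderiv_pos (f : D) (x : ℝ) : 0 < deriv f x := by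
  have h1 : 0 ≤ deriv f x := (smono f).monotone.deriv_nonneg
  have h2 : deriv f x ≠ 0 := by
    intro h0
    have hd : HasDerivAt f (deriv f x) x := (ddiff f).differentiableAt.hasDerivAt
    have hd' : HasDerivAt (f⁻¹ : D) (deriv (f⁻¹ : D) (f x)) (f x) :=
      (ddiff f⁻¹).differentiableAt.hasDerivAt
    have hc := hd'.comp x hd
    have he : ((f⁻¹ : D) : ℝ → ℝ) ∘ (f : ℝ → ℝ) = id := by funext y; simp
    rw [he, h0, mul_zero] at hc
    exact absurd (hc.unique (hasDerivAt_id x)) (by norm_num)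
  exact lt_of_le_of_ne h1 (Ne.symm h2)

/-- constructing diffeomorphisms -/
lemma exists_mk (φ : ℝ → ℝ) (hs : ContDiff ℝ ∞ φ) (hd : ∀ x, 0 < deriv φ x)
    (hsurj : Function.Surjective φ) : ∃ f : D, (f : ℝ → ℝ) = φ := by
  have hmono : StrictMono φ := strictMono_of_deriv_pos hd
  let e : ℝ ≃o ℝ := hmono.orderIsoOfSurjective φ hsurj
  let E : Equiv.Perm ℝ := e.toEquiv
  refine ⟨⟨E, hmono, hs, ?_⟩, rfl⟩
  have h := Homeomorph.contDiff_symm_deriv (n := ∞) (f := e.toHomeomorph) (f' := deriv φ)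
    (fun x => (hd x).ne') (fun x => (hs.differentiable (by simp)).differentiableAt.hasDerivAt) hs
  exact h

/-- surjectivity from continuity and unboundedness -/
lemma surj_of (φ : ℝ → ℝ) (hc : Continuous φ) (h1 : ∀ y, ∃ x, φ x ≤ y) (h2 : ∀ y, ∃ x, y ≤ φ x) :
    Function.Surjective φ := by
  intro y
  obtain ⟨a, ha⟩ := h1 y
  obtain ⟨b, hb⟩ := h2 y
  exact mem_range_of_exists_le_of_exists_ge hc ⟨a, ha⟩ ⟨b, hb⟩

/-! ### Extension of diffeomorphisms -/

/-- a diffeomorphism which is the identity on `(-∞, s]` and takes `t` to `r > t` -/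
lemma exists_push {s t r : ℝ} (hst : s < t) (htr : t ≤ r) :
    ∃ τ : D, (∀ x ≤ s, τ x = x) ∧ τ t = r := by
  have hE := expNegInvGlue.pos_of_pos (sub_pos.2 hst)
  set A : ℝ := (r - t) / expNegInvGlue (t - s) with hA
  have hA0 : 0 ≤ A := div_nonneg (sub_nonneg.2 htr) hE.le
  have hsm : ContDiff ℝ ∞ (fun x : ℝ => x + A * expNegInvGlue (x - s)) := by
    refine contDiff_id.add (contDiff_const.mul ?_)
    exact (expNegInvGlue.contDiff (n := ⊤)).comp (contDiff_id.sub contDiff_const)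
  obtain ⟨τ, hτ⟩ := exists_mk (fun x : ℝ => x + A * expNegInvGlue (x - s)) hsm (by
    intro x
    have hd : DifferentiableAt ℝ (fun x : ℝ => A * expNegInvGlue (x - s)) x := by
      have h3 : ContDiff ℝ ∞ (fun x : ℝ => A * expNegInvGlue (x - s)) := by
        refine contDiff_const.mul ?_
        exact (expNegInvGlue.contDiff (n := ⊤)).comp (contDiff_id.sub contDiff_const)
      exact (h3.differentiable (by simp)).differentiableAt
    have h1 : deriv (fun x : ℝ => x + A * expNegInvGlue (x - s)) x =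
        1 + deriv (fun x : ℝ => A * expNegInvGlue (x - s)) x := by
      have := deriv_add (f := fun x : ℝ => x) (g := fun x : ℝ => A * expNegInvGlue (x - s))
        differentiableAt_id hd
      simp only [deriv_id''] at this
      exact this
    have h2 : 0 ≤ deriv (fun x : ℝ => A * expNegInvGlue (x - s)) x := by
      refine Monotone.deriv_nonneg ?_
      intro a b hab
      exact mul_le_mul_of_nonneg_left (expNegInvGlue.monotone (by linarith)) hA0
    rw [h1]; linarith) (by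
    refine surj_of _ hsm.continuous ?_ ?_
    · intro y
      refine ⟨min y s, ?_⟩
      rw [expNegInvGlue.zero_of_nonpos (by linarith [min_le_right y s])]
      simp
    · intro y
      refine ⟨y, ?_⟩
      have := mul_nonneg hA0 (expNegInvGlue.nonneg (y - s))
      linarith)
  refine ⟨τ, ?_, ?_⟩
  · intro x hx
    rw [hτ]
    simp only
    rw [expNegInvGlue.zero_of_nonpos (by linarith)]
    simp
  · rw [hτ]
    simp only
    rw [hA, div_mul_cancel₀ _ hE.ne']
    ring

/-- change a diffeomorphism to the right of `p` so that it takes `q` to `r` -/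
lemma extend (ψ : D) {p q r : ℝ} (hpq : p < q) (hr : ψ p < r) :
    ∃ ψ' : D, (∀ x ≤ p, ψ' x = ψ x) ∧ ψ' q = r := by
  have hpq' : ψ p < ψ q := (dlt ψ).2 hpq
  rcases le_total (ψ q) r with h | h
  · obtain ⟨τ, h1, h2⟩ := exists_push hpq' h
    refine ⟨τ * ψ, ?_, ?_⟩
    · intro x hx
      rw [mul_app]; exact h1 _ ((dle ψ).2 hx)
    · rw [mul_app]; exact h2
  · obtain ⟨τ, h1, h2⟩ := exists_push hr h
    refine ⟨τ⁻¹ * ψ, ?_, ?_⟩
    · intro x hx
      rw [mul_app]
      have h3 := h1 _ ((dle ψ).2 hx)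
      conv_lhs => rw [← h3]
      rw [inv_self]
    · rw [mul_app, ← h2, inv_self]

/-! ### Gluing -/

lemma glue (F : ℕ → D) (c : ℕ → ℝ) (hc : Filter.Tendsto c Filter.atTop Filter.atTop)
    (hmono : Monotone c)
    (hF : ∀ n, ∀ x ≤ c n, F (n + 1) x = F n x)
    (hbig : ∀ y, ∃ n, y ≤ F n (c n)) :
    ∃ G : D, ∀ n, ∀ x ≤ c n, G x = F n x := by
  classical
  have hex : ∀ x : ℝ, ∃ n, x < c n := fun x =>
    (hc.eventually (Filter.eventually_gt_atTop x)).exists
  let N : ℝ → ℕ := fun x => Nat.find (hex x)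
  have hN : ∀ x, x < c (N x) := fun x => Nat.find_spec (hex x)
  let φ : ℝ → ℝ := fun x => F (N x) x
  have hagree : ∀ m n, m ≤ n → ∀ x ≤ c m, F n x = F m x := by
    intro m n hmn
    induction n, hmn using Nat.le_induction with
    | base => intro x _; rfl
    | succ n hmn ih =>
      intro x hx
      rw [hF n x (hx.trans (hmono hmn)), ih x hx]
  have hφ : ∀ n, ∀ x ≤ c n, φ x = F n x := by
    intro n x hx
    rcases le_total (N x) n with h | h
    · exact (hagree _ _ h x (hN x).le).symm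
    · exact hagree _ _ h x hx
  have hev : ∀ x, φ =ᶠ[nhds x] F (N x) := by
    intro x
    filter_upwards [Iio_mem_nhds (hN x)] with y hy
    exact hφ _ y (le_of_lt hy)
  have hsm : ContDiff ℝ ∞ φ := by
    rw [contDiff_iff_contDiffAt]
    intro x
    exact ((smooth (F (N x))).contDiffAt).congr_of_eventuallyEq (hev x)
  obtain ⟨G, hG⟩ := exists_mk φ hsm (by
    intro x
    rw [(hev x).deriv_eq]
    exact dderiv_pos _ x) (by
    intro y
    obtain ⟨n, hn⟩ := hbig y
    refine ⟨(F n)⁻¹ y, ?_⟩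
    have : (F n)⁻¹ y ≤ c n := by
      rw [← dle (F n), self_inv]; exact hn
    rw [hφ n _ this, self_inv])
  exact ⟨G, fun n x hx => by rw [hG]; exact hφ n x hx⟩

/-! ### The model `M` -/

/-- `ν(x) = x - sin(πx)/4` -/
lemma exists_nu : ∃ ν : D, ∀ x, ν x = x - Real.sin (Real.pi * x) / 4 := by
  have hsm : ContDiff ℝ ∞ (fun x : ℝ => x - Real.sin (Real.pi * x) / 4) := by
    refine contDiff_id.sub (ContDiff.div_const ?_ 4)
    exact Real.contDiff_sin.comp (contDiff_const.mul contDiff_id)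
  obtain ⟨f, hf⟩ := exists_mk (fun x : ℝ => x - Real.sin (Real.pi * x) / 4) hsm (by
    intro x
    have h : HasDerivAt (fun x : ℝ => x - Real.sin (Real.pi * x) / 4)
        (1 - (Real.cos (Real.pi * x) * (Real.pi * 1)) / 4) x :=
      (hasDerivAt_id x).sub ((((hasDerivAt_id x).const_mul Real.pi).sin).div_const 4)
    rw [h.deriv]
    have h1 := Real.neg_one_le_cos (Real.pi * x)
    have h2 := Real.cos_le_one (Real.pi * x)
    have h3 := Real.pi_lt_four
    have h4 := Real.pi_pos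
    nlinarith) (by
    refine surj_of _ hsm.continuous ?_ ?_
    · intro y
      refine ⟨y - 1, ?_⟩
      have := Real.neg_one_le_sin (Real.pi * (y - 1))
      linarith
    · intro y
      refine ⟨y + 1, ?_⟩
      have := Real.sin_le_one (Real.pi * (y + 1))
      linarith)
  exact ⟨f, fun x => by rw [hf]⟩

/-- the translation `x ↦ x + 1` -/
lemma exists_T : ∃ T : D, ∀ x, T x = x + 1 := by
  have hsm : ContDiff ℝ ∞ (fun x : ℝ => x + 1) := contDiff_id.add contDiff_const
  obtain ⟨f, hf⟩ := exists_mk (fun x : ℝ => x + 1) hsm (by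
    intro x
    have h : HasDerivAt (fun x : ℝ => x + 1) 1 x := (hasDerivAt_id x).add_const 1
    rw [h.deriv]; norm_num) (by
    intro y; exact ⟨y - 1, by simp⟩)
  exact ⟨f, fun x => by rw [hf]⟩

noncomputable def nu : D := exists_nu.choose
lemma nu_app (x : ℝ) : nu x = x - Real.sin (Real.pi * x) / 4 := exists_nu.choose_spec x
noncomputable def Tr : D := exists_T.choose
@[simp] lemma Tr_app (x : ℝ) : Tr x = x + 1 := exists_T.choose_spec x
@[simp] lemma Tr_inv_app (x : ℝ) : Tr⁻¹ x = x - 1 := by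
  apply dinj Tr
  rw [self_inv, Tr_app]; ring

/-- the model reversible diffeomorphism -/
noncomputable def M : D := nu⁻¹ * Tr * nu * Tr⁻¹

lemma nu_M (x : ℝ) : nu (M x) = x + Real.sin (Real.pi * x) / 4 := by
  unfold M
  rw [mul_app, mul_app, mul_app, self_inv, Tr_inv_app, Tr_app, nu_app]
  have : Real.pi * (x - 1) = Real.pi * x - Real.pi := by ring
  rw [this, Real.sin_sub_pi]
  ring

lemma M_gt {x : ℝ} : x < M x ↔ 0 < Real.sin (Real.pi * x) := by
  rw [← dlt nu, nu_M, nu_app]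
  constructor <;> intro h <;> linarith

lemma M_lt {x : ℝ} : M x < x ↔ Real.sin (Real.pi * x) < 0 := by
  rw [← dlt nu, nu_M, nu_app]
  constructor <;> intro h <;> linarith

lemma M_eq {x : ℝ} : M x = x ↔ Real.sin (Real.pi * x) = 0 := by
  constructor
  · intro h
    have h1 := nu_M x
    rw [h, nu_app] at h1
    linarith
  · intro h
    apply dinj nu
    rw [nu_M, nu_app, h]; ring

lemma M_int (n : ℤ) : M n = n := by
  rw [M_eq]
  rw [mul_comm]
  exact Real.sin_int_mul_pi n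

lemma sin_even (j : ℤ) (x : ℝ) :
    Real.sin (Real.pi * x) = Real.sin (Real.pi * (x - 2 * j)) := by
  have : Real.pi * (x - 2 * j) = Real.pi * x - j * (2 * Real.pi) := by ring
  rw [this, Real.sin_sub_int_mul_two_pi]

lemma M_gt_of {x : ℝ} {j : ℤ} (h1 : 2 * j < x) (h2 : x < 2 * j + 1) : x < M x := by
  rw [M_gt, sin_even j]
  have := Real.pi_pos
  apply Real.sin_pos_of_pos_of_lt_pi
  · apply mul_pos this; linarith
  · nlinarith

lemma M_lt_of {x : ℝ} {j : ℤ} (h1 : 2 * j + 1 < x) (h2 : x < 2 * j + 2) : M x < x := by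
  rw [M_lt, sin_even (j + 1)]
  have := Real.pi_pos
  push_cast
  apply Real.sin_neg_of_neg_of_neg_pi_lt
  · nlinarith
  · nlinarith

lemma exists_of_M_gt {x : ℝ} (h : x < M x) : ∃ j : ℤ, 2 * j < x ∧ x < 2 * j + 1 := by
  refine ⟨⌊x / 2⌋, ?_⟩
  have h1 := Int.floor_le (x / 2)
  have h2 := Int.lt_floor_add_one (x / 2)
  have hne : (2 * (⌊x / 2⌋ : ℝ)) ≠ x := by
    intro he
    have := M_int (2 * ⌊x / 2⌋)
    push_cast at this
    rw [he] at this
    linarith
  have h3 : 2 * (⌊x / 2⌋ : ℝ) < x := lt_of_le_of_ne (by linarith) hne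
  refine ⟨h3, ?_⟩
  by_contra hcon
  push Not at hcon
  rcases hcon.eq_or_lt with he | hlt
  · have := M_int (2 * ⌊x / 2⌋ + 1)
    push_cast at this
    rw [he] at this
    linarith
  · have := M_lt_of (j := ⌊x / 2⌋) hlt (by linarith)
    linarith

lemma exists_of_M_lt {x : ℝ} (h : M x < x) : ∃ j : ℤ, 2 * j + 1 < x ∧ x < 2 * j + 2 := by
  refine ⟨⌊x / 2⌋, ?_⟩
  have h1 := Int.floor_le (x / 2)
  have h2 := Int.lt_floor_add_one (x / 2)
  refine ⟨?_, by linarith⟩
  by_contra hcon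
  push Not at hcon
  rcases hcon.eq_or_lt with he | hlt
  · have := M_int (2 * ⌊x / 2⌋ + 1)
    push_cast at this
    rw [← he] at this
    linarith
  · have hne : (2 * (⌊x / 2⌋ : ℝ)) ≠ x := by
      intro he
      have := M_int (2 * ⌊x / 2⌋)
      push_cast at this
      rw [he] at this
      linarith
    have h3 : 2 * (⌊x / 2⌋ : ℝ) < x := lt_of_le_of_ne (by linarith) hne
    have := M_gt_of (j := ⌊x / 2⌋) h3 hlt
    linarith

/-- `M` is reversed by the translation by one. -/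
lemma M_rev : Tr * M * Tr⁻¹ = M⁻¹ := by
  have hper : Tr * Tr * nu = nu * Tr * Tr := by
    apply dext
    intro x
    simp only [mul_app, Tr_app, nu_app]
    have : Real.pi * (x + 1 + 1) = Real.pi * x + 2 * Real.pi := by ring
    rw [this, Real.sin_add_two_pi]; ring
  unfold M
  have h2 : Tr * (nu⁻¹ * Tr * nu * Tr⁻¹) * Tr⁻¹ = Tr * nu⁻¹ * Tr⁻¹ * (Tr * Tr * nu) * Tr⁻¹ * Tr⁻¹ := by
    group
  rw [h2, hper]
  group

lemma reversible_conj (ψ : D) : Reversible (ψ⁻¹ * M * ψ) := by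
  refine ⟨ψ⁻¹ * Tr * ψ, ?_⟩
  have : ψ⁻¹ * Tr * ψ * (ψ⁻¹ * M * ψ) * (ψ⁻¹ * Tr * ψ)⁻¹ = ψ⁻¹ * (Tr * M * Tr⁻¹) * ψ := by group
  rw [this, M_rev]; group

lemma Reversible.inv {G : Type*} [Group G] {g : G} (h : Reversible g) : Reversible g⁻¹ := by
  obtain ⟨k, hk⟩ := h
  refine ⟨k, ?_⟩
  have : k * g⁻¹ * k⁻¹ = (k * g * k⁻¹)⁻¹ := by group
  rw [this, hk]

end Pool.Agent.R629.Rev
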