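import Pool.Agent.R629.Rev.Basic

namespace Pool.Agent.R629.Rev

/-- iteration passes every point -/
lemma iter_pass (k : D) {c x₁ : ℝ} (h : ∀ x, c ≤ x → x ≤ x₁ → x < k x) :
    ∃ N : ℕ, x₁ < (k ^ N) c := by
  by_contra hcon
  push Not at hcon
  have hsucc : ∀ n, (k ^ (n + 1)) c = k ((k ^ n) c) := by
    intro n; rw [pow_succ']; rfl
  have hge : ∀ n, c ≤ (k ^ n) c := by
    intro n
    induction n with
    | zero => simp
    | succ n ih =>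
      rw [hsucc]
      exact ih.trans (h _ ih (hcon n)).le
  have hmono : Monotone fun n => (k ^ n) c := by
    refine monotone_nat_of_le_succ fun n => ?_
    rw [hsucc]
    exact (h _ (hge n) (hcon n)).le
  have hbdd : BddAbove (Set.range fun n => (k ^ n) c) := ⟨x₁, by
    rintro _ ⟨n, rfl⟩; exact hcon n⟩
  have hlim := tendsto_atTop_ciSup hmono hbdd
  set L := ⨆ n, (k ^ n) c with hL
  have h1 : Filter.Tendsto (fun n => k ((k ^ n) c)) Filter.atTop (nhds (k L)) :=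
    ((cont k).tendsto L).comp hlim
  have h2 : Filter.Tendsto (fun n => (k ^ (n + 1)) c) Filter.atTop (nhds L) :=
    hlim.comp (Filter.tendsto_add_atTop_nat 1)
  have h3 : k L = L := by
    refine tendsto_nhds_unique h1 ?_
    refine h2.congr fun n => ?_
    exact hsucc n
  have hL1 : c ≤ L := ge_of_tendsto' hlim hge
  have hL2 : L ≤ x₁ := le_of_tendsto' hlim hcon
  have := h L hL1 hL2
  rw [h3] at this
  exact lt_irrefl _ this

lemma pow_mono (k : D) (n : ℕ) {x y : ℝ} (h : x ≤ y) : (k ^ n) x ≤ (k ^ n) y := (dle _).2 h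

/-- dynamical extension of a conjugacy to the right, `k` moving points to the right -/
lemma det_right (k χ : D) {c x₁ : ℝ} (hk : c < k c) (hV : ∀ x ≤ c, χ (k x) = M (χ x))
    (hmove : ∀ x, c ≤ x → x ≤ x₁ → x < k x) :
    ∃ χ' : D, (∀ x ≤ k c, χ' x = χ x) ∧ (∀ x ≤ x₁, χ' (k x) = M (χ' x)) := by
  obtain ⟨N, hN⟩ := iter_pass k hmove
  have hinv : ∀ n : ℕ, ∀ x ≤ k c, ((k⁻¹) ^ (n + 1)) x ≤ c := by
    intro n
    induction n with
    | zero =>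
      intro x hx
      rw [zero_add, pow_one, ← dle k, self_inv]; exact hx
    | succ n ih =>
      intro x hx
      rw [pow_succ', mul_app, ← dle k, self_inv]
      exact (ih x hx).trans hk.le
  refine ⟨M ^ N * χ * (k⁻¹) ^ N, ?_, ?_⟩
  · intro x hx
    have key : ∀ n : ℕ, (M ^ n * χ * (k⁻¹) ^ n) x = χ x := by
      intro n
      induction n with
      | zero => simp
      | succ n ih =>
        have hz := hinv n x hx
        have h1 := hV _ hz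
        have h2 : k (((k⁻¹) ^ (n + 1)) x) = ((k⁻¹) ^ n) x := by
          rw [pow_succ', mul_app, self_inv]
        rw [h2] at h1
        rw [← ih]
        simp only [mul_app]
        rw [pow_succ M, mul_app, ← h1]
    exact key N
  · intro x hx
    have h0 : ((k⁻¹) ^ N) x ≤ c := by
      have h1 : (k⁻¹ ^ N) x ≤ (k⁻¹ ^ N) ((k ^ N) c) := pow_mono _ _ (hx.trans hN.le)
      have h2 : (k⁻¹ ^ N) ((k ^ N) c) = c := by
        rw [← mul_app, inv_pow, inv_mul_cancel]; rfl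
      rw [h2] at h1; exact h1
    have h1 := hV _ h0
    have h2 : ((k⁻¹) ^ N) (k x) = k (((k⁻¹) ^ N) x) := by
      rw [← mul_app, ← mul_app]
      congr 2
      rw [inv_pow]
      exact ((Commute.refl k).pow_left N).inv_left.eq
    have h3 : ∀ y, (M ^ N) (M y) = M ((M ^ N) y) := by
      intro y
      rw [← mul_app, ← mul_app, ← pow_succ, ← pow_succ']
    simp only [mul_app]
    rw [h2, h1, h3]

/-- dynamical extension of a conjugacy to the right, `k` moving points to the left -/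
lemma det_left (k χ : D) {c x₁ : ℝ} (hk : k c < c) (hV : ∀ x ≤ c, χ (k x) = M (χ x))
    (hmove : ∀ x, c ≤ x → x ≤ x₁ → k x < x) :
    ∃ χ' : D, (∀ x ≤ c, χ' x = χ x) ∧ (∀ x ≤ x₁, χ' (k x) = M (χ' x)) := by
  obtain ⟨N, hN⟩ := iter_pass (k⁻¹) (c := c) (x₁ := x₁) (by
    intro x hx hx'
    rw [lt_inv']; exact hmove x hx hx')
  have hinv : ∀ n : ℕ, ∀ x ≤ c, (k ^ n) x ≤ c := by
    intro n
    induction n with
    | zero => intro x hx; simpa using hx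
    | succ n ih =>
      intro x hx
      rw [pow_succ', mul_app]
      exact ((dle k).2 (ih x hx)).trans hk.le
  refine ⟨(M⁻¹) ^ N * χ * k ^ N, ?_, ?_⟩
  · intro x hx
    have key : ∀ n : ℕ, ((M⁻¹) ^ n * χ * k ^ n) x = χ x := by
      intro n
      induction n with
      | zero => simp
      | succ n ih =>
        have hz := hinv n x hx
        have h1 := hV _ hz
        rw [← ih]
        simp only [mul_app]
        rw [pow_succ' k, mul_app, h1, pow_succ (M⁻¹), mul_app, inv_self]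
    exact key N
  · intro x hx
    have h0 : (k ^ N) x ≤ c := by
      have h1 : (k ^ N) x ≤ (k ^ N) ((k⁻¹ ^ N) c) := pow_mono _ _ (hx.trans hN.le)
      have h2 : (k ^ N) ((k⁻¹ ^ N) c) = c := by
        rw [← mul_app, inv_pow, mul_inv_cancel]; rfl
      rw [h2] at h1; exact h1
    have h1 := hV _ h0
    have h2 : (k ^ N) (k x) = k ((k ^ N) x) := by
      rw [← mul_app, ← mul_app, ← pow_succ, ← pow_succ']
    have h3 : ∀ y, ((M⁻¹) ^ N) (M y) = M (((M⁻¹) ^ N) y) := by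
      intro y
      rw [← mul_app, ← mul_app]
      congr 2
      rw [inv_pow]
      exact ((Commute.refl M).pow_left N).inv_left.eq
    simp only [mul_app]
    rw [h2, h1, h3]

/-- the conjugate of `M` agrees with `g` where the conjugacy equation holds -/
lemma conj_agree {ψ ψ' g : D} {c : ℝ} (hV : ∀ x ≤ c, ψ (g x) = M (ψ x))
    (h1 : ∀ x ≤ c, ψ' x = ψ x) (h2 : ∀ x ≤ c, ψ' (g x) = ψ (g x)) :
    ∀ x ≤ c, (ψ'⁻¹ * M * ψ') x = g x := by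
  intro x hx
  apply dinj ψ'
  simp only [mul_app, self_inv]
  rw [h1 x hx, h2 x hx, hV x hx]

/-- validity of a pair of conjugacies up to `c` -/
structure V (f g ψ χ : D) (c : ℝ) : Prop where
  a : ∀ x ≤ c, ψ (g x) = M (ψ x)
  b : ∀ x ≤ c, χ (f (g x)) = M (χ x)
  la : g c < c
  lb : f (g c) < c

/-- One full cycle of the construction. -/
lemma cycle {f g ψ χ : D} {c : ℝ} (hf : ∀ B : ℝ, ∃ x, B < x ∧ x < f x) (hV : V f g ψ χ c) :
    ∃ (g' ψ' χ' : D) (c' : ℝ), V f g' ψ' χ' c' ∧ c + 1 ≤ c' ∧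
      (∀ x ≤ c, g' x = g x) ∧ (∀ x ≤ c, ψ' x = ψ x) ∧ (∀ x ≤ c, χ' x = χ x) ∧
      ψ c + 1 ≤ ψ' c' ∧ χ c + 1 ≤ χ' c' ∧ ∃ r, c ≤ r ∧ r ≤ c' ∧ r < g' r ∧ r < f (g' r) := by
  set k : D := f * g with hk
  have hkapp : ∀ x, k x = f (g x) := fun x => rfl
  -- positions of the conjugacies
  have hMψ : M (ψ c) < ψ c := by rw [← hV.a c le_rfl]; exact (dlt ψ).2 hV.la
  have hMχ : M (χ c) < χ c := by rw [← hV.b c le_rfl]; exact (dlt χ).2 hV.lb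
  obtain ⟨l, hl1, hl2⟩ := exists_of_M_lt hMχ
  have hkfc : f (g c) < f c := (dlt f).2 hV.la
  ---------------------------------------------------------------- Step 1
  obtain ⟨b', hb', hfb'⟩ := hf (c + 1)
  -- a neighbourhood to the left of `b'`
  obtain ⟨e₀, he₀, hnear⟩ : ∃ e₀ < b', ∀ x, e₀ < x → x ≤ b' → x < f x := by
    have h1 : ∀ᶠ x in nhds b', x < f x := (continuous_id.tendsto b').eventually_lt
      ((cont f).tendsto b') hfb'
    obtain ⟨δ, hδ, hball⟩ := Metric.eventually_nhds_iff.1 h1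
    refine ⟨b' - δ, by linarith, fun x hx hx' => hball ?_⟩
    rw [Real.dist_eq, abs_lt]; constructor <;> linarith
  obtain ⟨e, hee, heb⟩ : ∃ e, max e₀ c < e ∧ e < b' := by
    have : max e₀ c < b' := max_lt he₀ (by linarith)
    exact ⟨(max e₀ c + b') / 2, by linarith, by linarith⟩
  have hce : c < e := (le_max_right _ _).trans_lt hee
  have hee₀ : e₀ < e := (le_max_left _ _).trans_lt hee
  obtain ⟨u, hu1, hu2⟩ : ∃ u, b' < u ∧ u < f b' := exists_between hfb'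
  obtain ⟨x₁, hx1, hx2⟩ : ∃ x₁, b' < x₁ ∧ x₁ < u := exists_between hu1
  -- the value `c₁`
  obtain ⟨c₁, hc1, hc1', hc1''⟩ : ∃ c₁, χ c < c₁ ∧ c₁ < 2 * l + 2 ∧
      χ⁻¹ (M c₁) < min c (f c) := by
    have h1 : χ⁻¹ (M (χ c)) < min c (f c) := by
      rw [← hV.b c le_rfl, inv_self]
      exact lt_min hV.lb hkfc
    have hcont : Continuous fun y => χ⁻¹ (M y) := (cont χ⁻¹).comp (cont M)
    have h2 : ∀ᶠ y in nhds (χ c), χ⁻¹ (M y) < min c (f c) :=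
      (hcont.tendsto (χ c)).eventually_lt_const h1
    obtain ⟨δ, hδ, hball⟩ := Metric.eventually_nhds_iff.1 h2
    refine ⟨χ c + min (δ / 2) ((2 * l + 2 - χ c) / 2), ?_, ?_, ?_⟩
    · have : 0 < min (δ / 2) ((2 * l + 2 - χ c) / 2) := lt_min (by linarith) (by linarith)
      linarith
    · have := min_le_right (δ / 2) ((2 * l + 2 - χ c) / 2)
      linarith
    · apply hball
      have h3 : 0 < min (δ / 2) ((2 * l + 2 - χ c) / 2) := lt_min (by linarith) (by linarith)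
      have h4 := min_le_left (δ / 2) ((2 * l + 2 - χ c) / 2)
      rw [Real.dist_eq, abs_lt]; constructor <;> linarith
  set θ : ℝ := 2 * l + 2 + 1 / 2 with hθ
  have hθM : θ < M θ := M_gt_of (j := l + 1) (by push_cast; rw [hθ]; linarith)
    (by push_cast; rw [hθ]; linarith)
  obtain ⟨χa, hχa1, hχa2⟩ := extend χ hce hc1
  obtain ⟨χb, hχb1, hχb2⟩ := extend χa heb (hχa2.trans_lt hc1')
  obtain ⟨χc, hχc1, hχc2⟩ := extend χb hx1 (r := θ) (by rw [hχb2, hθ]; linarith)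
  obtain ⟨χ₁, hχd1, hχd2⟩ := extend χc hx2 (r := M θ) (by rw [hχc2]; exact hθM)
  have hχ₁c : ∀ x ≤ c, χ₁ x = χ x := fun x hx => by
    rw [hχd1 x (by linarith), hχc1 x (by linarith), hχb1 x (by linarith), hχa1 x hx]
  have hχ₁e : χ₁ e = c₁ := by
    rw [hχd1 e (by linarith), hχc1 e (by linarith), hχb1 e le_rfl, hχa2]
  have hχ₁b : χ₁ b' = 2 * l + 2 := by
    rw [hχd1 b' (by linarith), hχc1 b' le_rfl, hχb2]
  have hχ₁x : χ₁ x₁ = θ := by rw [hχd1 x₁ le_rfl, hχc2]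
  have hχ₁u : χ₁ u = M θ := hχd2
  set k₁ : D := χ₁⁻¹ * M * χ₁ with hk₁
  have hk₁V : ∀ x, χ₁ (k₁ x) = M (χ₁ x) := fun x => by
    rw [hk₁, mul_app, mul_app, self_inv]
  have hkc : ∀ x ≤ c, k x ≤ c := fun x hx => ((dle k).2 hx).trans hV.lb.le
  have hk₁c : ∀ x ≤ c, k₁ x = k x :=
    conj_agree (ψ := χ) (g := k) hV.b hχ₁c (fun x hx => hχ₁c _ (hkc x hx))
  set g₁ : D := f⁻¹ * k₁ with hg₁
  have hfg₁ : ∀ x, f (g₁ x) = k₁ x := fun x => by rw [hg₁, mul_app, self_inv]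
  have hg₁c : ∀ x ≤ c, g₁ x = g x := fun x hx => by
    apply dinj f
    rw [hfg₁, hk₁c x hx, hkapp]
  have hk₁x₁ : k₁ x₁ = u := by
    apply dinj χ₁
    rw [hk₁V, hχ₁x, hχ₁u]
  have hk₁e : k₁ e < min c (f c) := by
    have h1 : k₁ e = χ⁻¹ (M c₁) := by
      apply dinj χ₁
      rw [hk₁V, hχ₁e, hχ₁c _ (hc1''.le.trans (min_le_left _ _)), self_inv]
    rw [h1]; exact hc1''
  have hk₁f : ∀ x, c ≤ x → x ≤ x₁ → k₁ x < f x := by
    intro x hx hx'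
    rcases le_total x e with h | h
    · calc k₁ x ≤ k₁ e := (dle k₁).2 h
        _ < f c := hk₁e.trans_le (min_le_right _ _)
        _ ≤ f x := (dle f).2 hx
    · rcases le_total x b' with h' | h'
      · have hle : k₁ x ≤ x := by
          rw [← dle χ₁, hk₁V]
          have h1 : c₁ ≤ χ₁ x := by rw [← hχ₁e]; exact (dle χ₁).2 h
          have h2 : χ₁ x ≤ 2 * l + 2 := by rw [← hχ₁b]; exact (dle χ₁).2 h'
          rcases h2.eq_or_lt with h3 | h3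
          · have := M_int (2 * l + 2)
            push_cast at this
            rw [h3, this]
          · exact (M_lt_of (j := l) (by linarith) h3).le
        exact hle.trans_lt (hnear x (by linarith) h')
      · calc k₁ x ≤ k₁ x₁ := (dle k₁).2 hx'
          _ = u := hk₁x₁
          _ < f b' := hu2
          _ ≤ f x := (dle f).2 h'
  have hg₁l : ∀ x, c ≤ x → x ≤ x₁ → g₁ x < x := by
    intro x hx hx'
    rw [← dlt f, hfg₁]; exact hk₁f x hx hx'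
  have hcx₁ : c ≤ x₁ := by linarith
  obtain ⟨ψ₁, hψ₁c, hψ₁V⟩ := det_left g₁ ψ (c := c) (x₁ := x₁)
    (by rw [hg₁c c le_rfl]; exact hV.la)
    (fun x hx => by rw [hg₁c x hx]; exact hV.a x hx) hg₁l
  ---------------------------------------------------------------- Step 2
  have hg₁x₁ : g₁ x₁ < x₁ := hg₁l x₁ hcx₁ le_rfl
  have hMψ₁ : M (ψ₁ x₁) < ψ₁ x₁ := by
    rw [← hψ₁V x₁ le_rfl]; exact (dlt ψ₁).2 hg₁x₁
  obtain ⟨j, hj1, hj2⟩ := exists_of_M_lt hMψ₁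
  obtain ⟨y₁, hy1, hfy1⟩ := hf u
  obtain ⟨x₂, hx₂1, hx₂2⟩ : ∃ x₂, x₁ < x₂ ∧ x₂ < u := exists_between hx2
  obtain ⟨a', ha'1, ha'2⟩ : ∃ a', x₁ < a' ∧ a' < x₂ := exists_between hx₂1
  set θ' : ℝ := 2 * j + 2 + 1 / 2 with hθ'
  have hθM' : θ' < M θ' := M_gt_of (j := j + 1) (by push_cast; rw [hθ']; linarith)
    (by push_cast; rw [hθ']; linarith)
  obtain ⟨ψa, hψa1, hψa2⟩ := extend ψ₁ ha'1 (r := 2 * j + 2) hj2
  obtain ⟨ψb, hψb1, hψb2⟩ := extend ψa ha'2 (r := θ') (by rw [hψa2, hθ']; linarith)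
  obtain ⟨ψ₂, hψc1, hψc2⟩ := extend ψb (p := x₂) (q := y₁) (r := M θ') (by linarith)
    (by rw [hψb2]; exact hθM')
  have hψ₂x₁ : ∀ x ≤ x₁, ψ₂ x = ψ₁ x := fun x hx => by
    rw [hψc1 x (by linarith), hψb1 x (by linarith), hψa1 x hx]
  have hψ₂x₂ : ψ₂ x₂ = θ' := by rw [hψc1 x₂ le_rfl, hψb2]
  have hψ₂y₁ : ψ₂ y₁ = M θ' := hψc2
  set g₂ : D := ψ₂⁻¹ * M * ψ₂ with hg₂
  have hg₂V : ∀ x, ψ₂ (g₂ x) = M (ψ₂ x) := fun x => by
    rw [hg₂, mul_app, mul_app, self_inv]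
  have hg₂x₁ : ∀ x ≤ x₁, g₂ x = g₁ x :=
    conj_agree (ψ := ψ₁) (g := g₁) hψ₁V hψ₂x₁
      (fun x hx => hψ₂x₁ _ (((dle g₁).2 hx).trans hg₁x₁.le))
  have hg₂x₂ : g₂ x₂ = y₁ := by
    apply dinj ψ₂
    rw [hg₂V, hψ₂x₂, hψ₂y₁]
  have hk₂x₁ : f (g₂ x₁) = u := by rw [hg₂x₁ x₁ le_rfl, hfg₁, hk₁x₁]
  obtain ⟨χ₂, hχ₂u, hχ₂V⟩ := det_right (f * g₂) χ₁ (c := x₁) (x₁ := x₂)
    (by rw [mul_app, hk₂x₁]; exact hx2)
    (fun x hx => by rw [mul_app, hg₂x₁ x hx, hfg₁]; exact hk₁V x)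
    (fun x hx hx' => by
      rw [mul_app]
      calc x ≤ x₂ := hx'
        _ < u := hx₂2
        _ = f (g₂ x₁) := hk₂x₁.symm
        _ ≤ f (g₂ x) := (dle f).2 ((dle g₂).2 hx))
  rw [mul_app, hk₂x₁] at hχ₂u
  ---------------------------------------------------------------- Step 3
  have hMθ'2 : M θ' < 2 * j + 3 := by
    have h1 : θ' < 2 * j + 3 := by rw [hθ']; linarith
    have h2 := (dlt M).2 h1
    have h3 := M_int (2 * j + 3)
    push_cast at h3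
    rw [h3] at h2; exact h2
  obtain ⟨c₃, hc₃1, hc₃2⟩ : ∃ c₃, y₁ < c₃ ∧ c₃ < f y₁ := exists_between hfy1
  obtain ⟨a₀, ha₀1, ha₀2⟩ : ∃ a₀, y₁ < a₀ ∧ a₀ < c₃ := exists_between hc₃1
  obtain ⟨ψd, hψd1, hψd2⟩ := extend ψ₂ ha₀1 (r := 2 * j + 3) (by rw [hψ₂y₁]; exact hMθ'2)
  obtain ⟨ψ₃, hψe1, hψe2⟩ := extend ψd ha₀2 (r := 2 * j + 3 + 1 / 2) (by rw [hψd2]; linarith)
  have hψ₃y₁ : ∀ x ≤ y₁, ψ₃ x = ψ₂ x := fun x hx => by
    rw [hψe1 x (by linarith), hψd1 x hx]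
  set g₃ : D := ψ₃⁻¹ * M * ψ₃ with hg₃
  have hg₃V : ∀ x, ψ₃ (g₃ x) = M (ψ₃ x) := fun x => by
    rw [hg₃, mul_app, mul_app, self_inv]
  have hx₂y₁ : x₂ < y₁ := by linarith
  have hg₃x₂ : ∀ x ≤ x₂, g₃ x = g₂ x :=
    conj_agree (ψ := ψ₂) (g := g₂) (fun x _ => hg₂V x) (fun x hx => hψ₃y₁ x (by linarith))
      (fun x hx => hψ₃y₁ _ (by rw [← hg₂x₂]; exact (dle g₂).2 hx))
  have hg₃c₃ : g₃ c₃ < c₃ := by
    rw [← dlt ψ₃, hg₃V, hψe2]
    exact M_lt_of (j := j + 1) (by push_cast; linarith) (by push_cast; linarith)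
  have hk₃x₂ : f (g₃ x₂) = f y₁ := by rw [hg₃x₂ x₂ le_rfl, hg₂x₂]
  obtain ⟨χ₃, hχ₃u, hχ₃V⟩ := det_right (f * g₃) χ₂ (c := x₂) (x₁ := c₃)
    (by rw [mul_app, hk₃x₂]; linarith)
    (fun x hx => by
      have := hχ₂V x hx
      rw [mul_app] at this
      rw [mul_app, hg₃x₂ x hx]; exact this)
    (fun x hx hx' => by
      rw [mul_app]
      calc x ≤ c₃ := hx'
        _ < f y₁ := hc₃2
        _ = f (g₃ x₂) := hk₃x₂.symm
        _ ≤ f (g₃ x) := (dle f).2 ((dle g₃).2 hx))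
  rw [mul_app, hk₃x₂] at hχ₃u
  ---------------------------------------------------------------- Step 4
  set z₂ : ℝ := f (g₃ c₃) with hz₂
  have hx₂c₃ : x₂ < c₃ := by linarith
  have hz₂c : c₃ < z₂ := by
    calc c₃ < f y₁ := hc₃2
      _ = f (g₃ x₂) := hk₃x₂.symm
      _ ≤ z₂ := (dle f).2 ((dle g₃).2 hx₂c₃.le)
  have hfz : f y₁ ≤ z₂ := by
    rw [← hk₃x₂]; exact (dle f).2 ((dle g₃).2 hx₂c₃.le)
  have hχ₃c : χ₃ z₂ = M (χ₃ c₃) := hχ₃V c₃ le_rfl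
  have hMχ₃ : χ₃ c₃ < M (χ₃ c₃) := by rw [← hχ₃c]; exact (dlt χ₃).2 hz₂c
  obtain ⟨l', hl'1, hl'2⟩ := exists_of_M_gt hMχ₃
  have hχ₃z : χ₃ z₂ < 2 * l' + 1 := by
    have h2 := (dlt M).2 hl'2
    have h3 := M_int (2 * l' + 1)
    push_cast at h3
    rw [h3] at h2
    rw [hχ₃c]; exact h2
  have hz₂f : z₂ < f c₃ := (dlt f).2 hg₃c₃
  obtain ⟨c₄, hc₄1, hc₄2⟩ : ∃ c₄, z₂ < c₄ ∧ c₄ < f c₃ := exists_between hz₂f
  obtain ⟨b₀, hb₀1, hb₀2⟩ : ∃ b₀, z₂ < b₀ ∧ b₀ < c₄ := exists_between hc₄1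
  obtain ⟨χe, hχe1, hχe2⟩ := extend χ₃ hb₀1 (r := 2 * l' + 1) hχ₃z
  obtain ⟨χ₄, hχf1, hχf2⟩ := extend χe hb₀2 (r := 2 * l' + 1 + 1 / 2) (by rw [hχe2]; linarith)
  have hχ₄z : ∀ x ≤ z₂, χ₄ x = χ₃ x := fun x hx => by
    rw [hχf1 x (by linarith), hχe1 x hx]
  have hχ₄b : χ₄ b₀ = 2 * l' + 1 := by rw [hχf1 b₀ le_rfl, hχe2]
  set k₄ : D := χ₄⁻¹ * M * χ₄ with hk₄
  have hk₄V : ∀ x, χ₄ (k₄ x) = M (χ₄ x) := fun x => by
    rw [hk₄, mul_app, mul_app, self_inv]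
  have hk₄c : ∀ x ≤ c₃, k₄ x = (f * g₃) x :=
    conj_agree (ψ := χ₃) (g := f * g₃) hχ₃V (fun x hx => hχ₄z x (by linarith))
      (fun x hx => hχ₄z _ ((dle (f * g₃)).2 hx))
  set g₄ : D := f⁻¹ * k₄ with hg₄
  have hfg₄ : ∀ x, f (g₄ x) = k₄ x := fun x => by rw [hg₄, mul_app, self_inv]
  have hg₄c : ∀ x ≤ c₃, g₄ x = g₃ x := fun x hx => by
    apply dinj f
    rw [hfg₄, hk₄c x hx, mul_app]
  have hk₄c₄ : k₄ c₄ < c₄ := by
    rw [← dlt χ₄, hk₄V, hχf2]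
    exact M_lt_of (j := l') (by linarith) (by linarith)
  have hg₄l : ∀ x, c₃ ≤ x → x ≤ c₄ → g₄ x < x := by
    intro x hx hx'
    refine lt_of_lt_of_le ?_ hx
    rw [← dlt f, hfg₄]
    calc k₄ x ≤ k₄ c₄ := (dle k₄).2 hx'
      _ < c₄ := hk₄c₄
      _ < f c₃ := hc₄2
  obtain ⟨ψ₄, hψ₄c, hψ₄V⟩ := det_left g₄ ψ₃ (c := c₃) (x₁ := c₄)
    (by rw [hg₄c c₃ le_rfl]; exact hg₃c₃)
    (fun x hx => by rw [hg₄c x hx]; exact hg₃V x) hg₄l
  have hcc : c ≤ x₁ := hcx₁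
  have hc₃c₄ : c₃ < c₄ := by linarith
  -- agreements on `(-∞, c]`
  have hgc : ∀ x ≤ c, g₄ x = g x := fun x hx => by
    rw [hg₄c x (by linarith), hg₃x₂ x (by linarith), hg₂x₁ x (by linarith), hg₁c x hx]
  have hψc : ∀ x ≤ c, ψ₄ x = ψ x := fun x hx => by
    rw [hψ₄c x (by linarith), hψ₃y₁ x (by linarith), hψ₂x₁ x (by linarith), hψ₁c x hx]
  have hχx : ∀ x ≤ u, χ₄ x = χ₁ x := fun x hx => by
    rw [hχ₄z x (by linarith), hχ₃u x (by linarith), hχ₂u x hx]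
  have hχc : ∀ x ≤ c, χ₄ x = χ x := fun x hx => by
    rw [hχx x (by linarith), hχ₁c x hx]
  refine ⟨g₄, ψ₄, χ₄, c₄, ⟨hψ₄V, ?_, ?_, ?_⟩, by linarith, hgc, hψc, hχc, ?_, ?_,
    x₂, by linarith, by linarith, ?_, ?_⟩
  · intro x _
    rw [hfg₄]; exact hk₄V x
  · exact hg₄l c₄ hc₃c₄.le le_rfl
  · rw [hfg₄]; exact hk₄c₄
  · -- progress of `ψ`
    have h1 : ψ₄ c₃ < ψ₄ c₄ := (dlt ψ₄).2 hc₃c₄
    rw [hψ₄c c₃ le_rfl, hψe2] at h1
    have h2 : ψ₁ c ≤ ψ₁ x₁ := (dle ψ₁).2 hcx₁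
    rw [hψ₁c c le_rfl] at h2
    linarith
  · -- progress of `χ`
    have h1 : χ₄ b₀ < χ₄ c₄ := (dlt χ₄).2 hb₀2
    rw [hχ₄b] at h1
    have h2 : χ₄ x₁ < χ₄ b₀ := (dlt χ₄).2 (by linarith)
    rw [hχx x₁ (by linarith), hχ₁x, hχ₄b, hθ] at h2
    have h3 : (2 * l + 3 : ℤ) ≤ 2 * l' + 1 := by
      have h4 : (2 * l + 2 : ℤ) < 2 * l' + 1 := by
        have : ((2 * l + 2 : ℤ) : ℝ) < ((2 * l' + 1 : ℤ) : ℝ) := by push_cast; linarith
        exact_mod_cast this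
      omega
    have h5 : ((2 * l + 3 : ℤ) : ℝ) ≤ ((2 * l' + 1 : ℤ) : ℝ) := by exact_mod_cast h3
    push_cast at h5
    linarith
  · rw [hg₄c x₂ hx₂c₃.le, hg₃x₂ x₂ le_rfl, hg₂x₂]; exact hx₂y₁
  · rw [hg₄c x₂ hx₂c₃.le, hg₃x₂ x₂ le_rfl, hg₂x₂]; linarith

end Pool.Agent.R629.Rev
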