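import Pool.Agent.R629.Rev.Cycle

namespace Pool.Agent.R629.Rev

open scoped ContDiff

/-- states of the construction -/
def St (f : D) : Type := {s : D × D × D × ℝ // V f s.1 s.2.1 s.2.2.1 s.2.2.2}

/-- the conclusion of the extension theorems -/
def Ext (f g ψ χ : D) (c : ℝ) : Prop :=
  ∃ g' ψ' χ' : D, (∀ x ≤ c, g' x = g x) ∧ (∀ x ≤ c, ψ' x = ψ x) ∧ (∀ x ≤ c, χ' x = χ x) ∧
    (∀ x, ψ' (g' x) = M (ψ' x)) ∧ (∀ x, χ' (f (g' x)) = M (χ' x)) ∧
    ∀ B : ℝ, ∃ r, B < r ∧ r < g' r ∧ r < f (g' r)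

lemma right_ext_gt {f g ψ χ : D} {c : ℝ} (hf : ∀ B : ℝ, ∃ x, B < x ∧ x < f x)
    (hV : V f g ψ χ c) : Ext f g ψ χ c := by
  have hstep : ∀ s : St f, ∃ s' : St f, s.1.2.2.2 + 1 ≤ s'.1.2.2.2 ∧
      (∀ x ≤ s.1.2.2.2, s'.1.1 x = s.1.1 x) ∧ (∀ x ≤ s.1.2.2.2, s'.1.2.1 x = s.1.2.1 x) ∧
      (∀ x ≤ s.1.2.2.2, s'.1.2.2.1 x = s.1.2.2.1 x) ∧
      s.1.2.1 s.1.2.2.2 + 1 ≤ s'.1.2.1 s'.1.2.2.2 ∧
      s.1.2.2.1 s.1.2.2.2 + 1 ≤ s'.1.2.2.1 s'.1.2.2.2 ∧
      ∃ r, s.1.2.2.2 ≤ r ∧ r ≤ s'.1.2.2.2 ∧ r < s'.1.1 r ∧ r < f (s'.1.1 r) := by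
    rintro ⟨⟨g, ψ, χ, c⟩, hs⟩
    obtain ⟨g', ψ', χ', c', h1, h2, h3, h4, h5, h6, h7, h8⟩ := cycle hf hs
    exact ⟨⟨⟨g', ψ', χ', c'⟩, h1⟩, h2, h3, h4, h5, h6, h7, h8⟩
  choose nxt hc hg hψ hχ hpψ hpχ hr using hstep
  let s : ℕ → St f := fun n => Nat.rec ⟨⟨g, ψ, χ, c⟩, hV⟩ (fun _ t => nxt t) n
  have hs : ∀ n, s (n + 1) = nxt (s n) := fun n => rfl
  let C : ℕ → ℝ := fun n => (s n).1.2.2.2
  let Gn : ℕ → D := fun n => (s n).1.1
  let Ψ : ℕ → D := fun n => (s n).1.2.1
  let Χ : ℕ → D := fun n => (s n).1.2.2.1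
  have hVn : ∀ n, V f (Gn n) (Ψ n) (Χ n) (C n) := fun n => (s n).2
  have hC : ∀ n, C n + 1 ≤ C (n + 1) := fun n => hc (s n)
  have hCmono : Monotone C := monotone_nat_of_le_succ fun n => by linarith [hC n]
  have hCge : ∀ n : ℕ, C 0 + n ≤ C n := by
    intro n
    induction n with
    | zero => simp
    | succ n ih => push_cast; linarith [hC n]
  have hCt : Filter.Tendsto C Filter.atTop Filter.atTop := by
    refine Filter.tendsto_atTop_mono hCge ?_
    exact Filter.tendsto_atTop_add_const_left _ _ tendsto_natCast_atTop_atTop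
  have hΨge : ∀ n : ℕ, Ψ 0 (C 0) + n ≤ Ψ n (C n) := by
    intro n
    induction n with
    | zero => simp
    | succ n ih =>
      have := hpψ (s n)
      push_cast
      have h2 : Ψ n (C n) + 1 ≤ Ψ (n + 1) (C (n + 1)) := this
      linarith
  have hΧge : ∀ n : ℕ, Χ 0 (C 0) + n ≤ Χ n (C n) := by
    intro n
    induction n with
    | zero => simp
    | succ n ih =>
      have := hpχ (s n)
      push_cast
      have h2 : Χ n (C n) + 1 ≤ Χ (n + 1) (C (n + 1)) := this
      linarith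
  obtain ⟨ψ', hψ'⟩ := glue Ψ C hCt hCmono (fun n x hx => hψ (s n) x hx) (by
    intro y
    obtain ⟨n, hn⟩ := exists_nat_ge (y - Ψ 0 (C 0))
    exact ⟨n, by linarith [hΨge n]⟩)
  obtain ⟨χ', hχ'⟩ := glue Χ C hCt hCmono (fun n x hx => hχ (s n) x hx) (by
    intro y
    obtain ⟨n, hn⟩ := exists_nat_ge (y - Χ 0 (C 0))
    exact ⟨n, by linarith [hΧge n]⟩)
  set g' : D := ψ'⁻¹ * M * ψ' with hg'
  have hg'V : ∀ x, ψ' (g' x) = M (ψ' x) := fun x => by
    rw [hg', mul_app, mul_app, self_inv]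
  have hg'n : ∀ n, ∀ x ≤ C n, g' x = Gn n x := by
    intro n
    exact conj_agree (ψ := Ψ n) (g := Gn n) (hVn n).a (hψ' n)
      (fun x hx => hψ' n _ (((dle (Gn n)).2 hx).trans (hVn n).la.le))
  refine ⟨g', ψ', χ', fun x hx => hg'n 0 x hx, fun x hx => hψ' 0 x hx, fun x hx => hχ' 0 x hx,
    hg'V, ?_, ?_⟩
  · intro x
    obtain ⟨n, hn⟩ := (hCt.eventually (Filter.eventually_ge_atTop x)).exists
    rw [hg'n n x hn, hχ' n x hn]
    have h1 : f (Gn n x) ≤ C n :=
      ((dle f).2 ((dle (Gn n)).2 hn)).trans (hVn n).lb.le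
    rw [hχ' n _ h1]
    exact (hVn n).b x hn
  · intro B
    obtain ⟨n, hn⟩ := (hCt.eventually (Filter.eventually_gt_atTop B)).exists
    obtain ⟨r, h1, h2, h3, h4⟩ := hr (s n)
    have h1' : C n ≤ r := h1
    have h2' : r ≤ C (n + 1) := h2
    refine ⟨r, by linarith, ?_, ?_⟩
    · rw [hg'n (n + 1) r h2']; exact h3
    · rw [hg'n (n + 1) r h2']; exact h4

lemma right_ext_lt {f g ψ χ : D} {c : ℝ} (hf : ∀ B : ℝ, ∃ x, B < x ∧ f x < x)
    (hV : V f g ψ χ c) : Ext f g ψ χ c := by
  have hV' : V f⁻¹ (f * g) χ ψ c := by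
    refine ⟨hV.b, ?_, hV.lb, ?_⟩
    · intro x hx
      rw [mul_app, inv_self]; exact hV.a x hx
    · rw [mul_app, inv_self]; exact hV.la
  obtain ⟨g', ψ', χ', h1, h2, h3, h4, h5, h6⟩ := right_ext_gt (f := f⁻¹) (by
    intro B
    obtain ⟨x, hx, hx'⟩ := hf B
    exact ⟨x, hx, by rw [lt_inv']; exact hx'⟩) hV'
  refine ⟨f⁻¹ * g', χ', ψ', ?_, h3, h2, h5, ?_, ?_⟩
  · intro x hx
    rw [mul_app, h1 x hx, mul_app, inv_self]
  · intro x
    rw [mul_app, self_inv]; exact h4 x
  · intro B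
    obtain ⟨r, hr1, hr2, hr3⟩ := h6 B
    refine ⟨r, hr1, hr3, ?_⟩
    rw [mul_app, self_inv]; exact hr2

lemma right_ext {f g ψ χ : D} {c : ℝ} (hf : ∀ B : ℝ, ∃ x, B < x ∧ f x ≠ x)
    (hV : V f g ψ χ c) : Ext f g ψ χ c := by
  by_cases h : ∀ B : ℝ, ∃ x, B < x ∧ x < f x
  · exact right_ext_gt h hV
  · push Not at h
    obtain ⟨B₀, hB₀⟩ := h
    refine right_ext_lt ?_ hV
    intro B
    obtain ⟨x, hx, hx'⟩ := hf (max B B₀)
    have h1 := hB₀ x ((le_max_right _ _).trans_lt hx)
    exact ⟨x, (le_max_left _ _).trans_lt hx, lt_of_le_of_ne h1 hx'⟩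

/-! ### Reflection -/

/-- `x ↦ -f(-x)` -/
noncomputable def refl (f : D) : D :=
  ⟨(Equiv.neg ℝ).trans ((f : Equiv.Perm ℝ).trans (Equiv.neg ℝ)), by
    refine ⟨?_, ?_, ?_⟩
    · intro x y hxy
      show -f (-x) < -f (-y)
      have := (dlt f).2 (neg_lt_neg hxy)
      linarith
    · show ContDiff ℝ ∞ fun x => -f (-x)
      exact ((smooth f).comp contDiff_neg).neg
    · show ContDiff ℝ ∞ fun x => -(f⁻¹ : D) (-x)
      exact ((smooth f⁻¹).comp contDiff_neg).neg⟩

@[simp] lemma refl_app (f : D) (x : ℝ) : refl f x = -f (-x) := rfl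

lemma refl_refl (f : D) : refl (refl f) = f := dext fun x => by simp

lemma refl_mul (f g : D) : refl (f * g) = refl f * refl g := dext fun x => by simp

lemma refl_one : refl 1 = 1 := dext fun x => by simp

lemma refl_inv (f : D) : refl f⁻¹ = (refl f)⁻¹ := by
  rw [eq_inv_iff_mul_eq_one, ← refl_mul, inv_mul_cancel, refl_one]

lemma refl_nu : refl nu = nu := by
  apply dext
  intro x
  rw [refl_app, nu_app, nu_app]
  have : Real.pi * -x = -(Real.pi * x) := by ring
  rw [this, Real.sin_neg]; ring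

lemma refl_M : refl M = M := by
  apply dext
  intro x
  apply dinj nu
  have h1 : nu (refl M x) = refl nu (refl M x) := by rw [refl_nu]
  rw [h1, refl_app, refl_app, neg_neg, nu_M, nu_M]
  have : Real.pi * -x = -(Real.pi * x) := by ring
  rw [this, Real.sin_neg]; ring

lemma M_neg (x : ℝ) : M (-x) = -M x := by
  have h : refl M x = M x := by rw [refl_M]
  rw [refl_app] at h
  linarith

lemma Reversible.refl {g : D} (h : Reversible g) : Reversible (refl g) := by
  obtain ⟨k, hk⟩ := h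
  refine ⟨Rev.refl k, ?_⟩
  rw [← refl_inv, ← refl_mul, ← refl_mul, hk, refl_inv]

/-! ### Cutting off -/

/-- a diffeomorphism agreeing with `f` on `(-∞, 0]` and with the identity near `+∞` -/
lemma cut (f : D) : ∃ f' : D, (∀ x ≤ 0, f' x = f x) ∧ ∃ A, ∀ x, A ≤ x → f' x = x := by
  set κ : ℝ := max (f 1) 0 with hκ
  have hκ0 : 0 ≤ κ := le_max_right _ _
  have hκf : f 1 ≤ κ := le_max_left _ _
  -- the interpolation between `f` and `x + κ`
  have hsm : ContDiff ℝ ∞ (fun x : ℝ => f x + Real.smoothTransition x * (x + κ - f x)) := by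
    refine (smooth f).add ?_
    exact (Real.smoothTransition.contDiff (n := ⊤)).mul
      ((contDiff_id.add contDiff_const).sub (smooth f))
  have hst : Differentiable ℝ Real.smoothTransition :=
    (Real.smoothTransition.contDiff (n := ⊤)).differentiable (by simp)
  obtain ⟨F, hF⟩ := exists_mk (fun x : ℝ => f x + Real.smoothTransition x * (x + κ - f x)) hsm (by
    intro x
    have h1 : HasDerivAt f (deriv f x) x := (ddiff f).differentiableAt.hasDerivAt
    have h2 : HasDerivAt Real.smoothTransition (deriv Real.smoothTransition x) x :=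
      (hst x).hasDerivAt
    have h3 : HasDerivAt (fun x : ℝ => f x + Real.smoothTransition x * (x + κ - f x))
        (deriv f x + (deriv Real.smoothTransition x * (x + κ - f x) +
          Real.smoothTransition x * (1 - deriv f x))) x :=
      h1.add (h2.mul (((hasDerivAt_id x).add_const κ).sub h1))
    rw [h3.deriv]
    have hs0 := Real.smoothTransition.nonneg x
    have hs1 := Real.smoothTransition.le_one x
    have hf' := dderiv_pos f x
    have hd0 : 0 ≤ deriv Real.smoothTransition x := Real.smoothTransition.monotone.deriv_nonneg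
    have h4 : 0 < deriv f x + Real.smoothTransition x * (1 - deriv f x) := by
      rcases hs1.eq_or_lt with h | h
      · rw [h]; linarith
      · have h7 : 0 < (1 - Real.smoothTransition x) * deriv f x :=
          mul_pos (by linarith) hf'
        nlinarith
    have h5 : 0 ≤ deriv Real.smoothTransition x * (x + κ - f x) := by
      rcases lt_or_ge x 0 with hx | hx
      · have h6 : deriv Real.smoothTransition x = 0 := by
          have : Real.smoothTransition =ᶠ[nhds x] fun _ => 0 := by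
            filter_upwards [Iio_mem_nhds hx] with y hy
            exact Real.smoothTransition.zero_of_nonpos (le_of_lt hy)
          rw [this.deriv_eq]; simp
        rw [h6]; simp
      · rcases lt_or_ge 1 x with hx' | hx'
        · have h6 : deriv Real.smoothTransition x = 0 := by
            have : Real.smoothTransition =ᶠ[nhds x] fun _ => 1 := by
              filter_upwards [Ioi_mem_nhds hx'] with y hy
              exact Real.smoothTransition.one_of_one_le (le_of_lt hy)
            rw [this.deriv_eq]; simp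
          rw [h6]; simp
        · refine mul_nonneg hd0 ?_
          have : f x ≤ f 1 := (dle f).2 hx'
          linarith
    linarith) (by
    refine surj_of _ hsm.continuous ?_ ?_
    · intro y
      refine ⟨f⁻¹ (min y (f 0)), ?_⟩
      have h1 : f⁻¹ (min y (f 0)) ≤ 0 := by
        rw [← dle f, self_inv]; exact min_le_right _ _
      simp only [self_inv]
      rw [Real.smoothTransition.zero_of_nonpos h1, zero_mul, add_zero]
      exact min_le_left _ _
    · intro y
      refine ⟨max y 1, ?_⟩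
      rw [Real.smoothTransition.one_of_one_le (le_max_right _ _)]
      have := le_max_left y 1
      linarith)
  -- the correction by the translation
  have hsm2 : ContDiff ℝ ∞ (fun x : ℝ => x + κ * Real.smoothTransition (x - f 0)) := by
    refine contDiff_id.add (contDiff_const.mul ?_)
    exact (Real.smoothTransition.contDiff (n := ⊤)).comp (contDiff_id.sub contDiff_const)
  obtain ⟨σ, hσ⟩ := exists_mk (fun x : ℝ => x + κ * Real.smoothTransition (x - f 0)) hsm2 (by
    intro x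
    have h3 : ContDiff ℝ ∞ (fun x : ℝ => κ * Real.smoothTransition (x - f 0)) := by
      refine contDiff_const.mul ?_
      exact (Real.smoothTransition.contDiff (n := ⊤)).comp (contDiff_id.sub contDiff_const)
    have hd : DifferentiableAt ℝ (fun x : ℝ => κ * Real.smoothTransition (x - f 0)) x :=
      (h3.differentiable (by simp)).differentiableAt
    have h1 : deriv (fun x : ℝ => x + κ * Real.smoothTransition (x - f 0)) x =
        1 + deriv (fun x : ℝ => κ * Real.smoothTransition (x - f 0)) x := by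
      have := deriv_add (f := fun x : ℝ => x)
        (g := fun x : ℝ => κ * Real.smoothTransition (x - f 0)) differentiableAt_id hd
      simp only [deriv_id''] at this
      exact this
    have h2 : 0 ≤ deriv (fun x : ℝ => κ * Real.smoothTransition (x - f 0)) x := by
      refine Monotone.deriv_nonneg ?_
      intro a b hab
      exact mul_le_mul_of_nonneg_left (Real.smoothTransition.monotone (by linarith)) hκ0
    rw [h1]; linarith) (by
    refine surj_of _ hsm2.continuous ?_ ?_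
    · intro y
      refine ⟨min y (f 0), ?_⟩
      rw [Real.smoothTransition.zero_of_nonpos (by linarith [min_le_right y (f 0)])]
      simp
    · intro y
      refine ⟨y, ?_⟩
      have := mul_nonneg hκ0 (Real.smoothTransition.nonneg (y - f 0))
      linarith)
  refine ⟨σ⁻¹ * F, ?_, max 1 (f 0 + 1), ?_⟩
  · intro x hx
    apply dinj σ
    rw [mul_app, self_inv, hF, hσ]
    have h1 : f x ≤ f 0 := (dle f).2 hx
    simp only
    rw [Real.smoothTransition.zero_of_nonpos hx,
      Real.smoothTransition.zero_of_nonpos (by linarith)]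
    ring
  · intro x hx
    have h1 : 1 ≤ x := (le_max_left _ _).trans hx
    have h2 : f 0 + 1 ≤ x := (le_max_right _ _).trans hx
    apply dinj σ
    rw [mul_app, self_inv, hF, hσ]
    simp only
    rw [Real.smoothTransition.one_of_one_le h1,
      Real.smoothTransition.one_of_one_le (by linarith)]
    ring

/-! ### The two-sided theorem -/

/-- `f = (χ⁻¹Mχ)(ψ⁻¹Mψ)⁻¹` -/
def Sol (f : D) : Prop := ∃ g ψ χ : D, (∀ x, ψ (g x) = M (ψ x)) ∧ (∀ x, χ (f (g x)) = M (χ x))

lemma sol_of_id_left {f : D} (hf : ∀ B : ℝ, ∃ x, B < x ∧ f x ≠ x) {A : ℝ}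
    (hA : ∀ x ≤ A, f x = x) : ∃ g ψ χ : D, (∀ x, ψ (g x) = M (ψ x)) ∧
      (∀ x, χ (f (g x)) = M (χ x)) ∧ ∀ B : ℝ, ∃ r, B < r ∧ r < g r ∧ r < f (g r) := by
  -- a starting point
  obtain ⟨j, hj⟩ : ∃ j : ℤ, (2 * j + 1 + 1 / 2 : ℝ) ≤ A := by
    refine ⟨⌊(A - 2) / 2⌋, ?_⟩
    have := Int.floor_le ((A - 2) / 2)
    linarith
  set c : ℝ := 2 * j + 1 + 1 / 2 with hc
  have hMc : M c < c := M_lt_of (j := j) (by rw [hc]; linarith) (by rw [hc]; linarith)
  have hV : V f M 1 1 c := by
    refine ⟨fun x _ => rfl, ?_, hMc, ?_⟩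
    · intro x hx
      have h1 : M x ≤ A := (((dle M).2 hx).trans hMc.le).trans hj
      simp only [one_app]
      exact hA _ h1
    · rw [hA _ (hMc.le.trans hj)]; exact hMc
  obtain ⟨g', ψ', χ', -, -, -, h4, h5, h6⟩ := right_ext hf hV
  exact ⟨g', ψ', χ', h4, h5, h6⟩

lemma sol_right {f : D} (hf : ∀ B : ℝ, ∃ x, B < x ∧ f x ≠ x) : Sol f := by
  by_cases hleft : ∃ A : ℝ, ∀ x ≤ A, f x = x
  · obtain ⟨A, hA⟩ := hleft
    obtain ⟨g, ψ, χ, h1, h2, -⟩ := sol_of_id_left hf hA
    exact ⟨g, ψ, χ, h1, h2⟩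
  · push Not at hleft
    -- cut off on the left
    obtain ⟨fc, hfc1, A, hfc2⟩ := cut (refl f)
    set f₂ : D := refl fc with hf₂
    have hf₂1 : ∀ x, 0 ≤ x → f₂ x = f x := by
      intro x hx
      rw [hf₂, refl_app, hfc1 (-x) (by linarith), refl_app, neg_neg, neg_neg]
    have hf₂2 : ∀ x ≤ -A, f₂ x = x := by
      intro x hx
      rw [hf₂, refl_app, hfc2 (-x) (by linarith), neg_neg]
    obtain ⟨g₁, ψ₁, χ₁, h1, h2, h3⟩ := sol_of_id_left (f := f₂) (by
      intro B
      obtain ⟨x, hx, hx'⟩ := hf (max B 0)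
      refine ⟨x, (le_max_left _ _).trans_lt hx, ?_⟩
      rw [hf₂1 x ((le_max_right _ _).trans_lt hx).le]; exact hx') hf₂2
    obtain ⟨r, hr1, hr2, hr3⟩ := h3 (g₁⁻¹ 0)
    have hpos : ∀ x, r ≤ x → 0 ≤ g₁ x := by
      intro x hx
      have : g₁⁻¹ 0 < x := hr1.trans_le hx
      rw [inv_lt] at this
      exact this.le
    have hV : V (refl f) (refl g₁) (refl ψ₁) (refl χ₁) (-r) := by
      refine ⟨?_, ?_, ?_, ?_⟩
      · intro x _
        simp only [refl_app, neg_neg]
        rw [h1, M_neg]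
      · intro x hx
        simp only [refl_app, neg_neg]
        rw [← hf₂1 _ (hpos (-x) (by linarith)), h2, M_neg]
      · simp only [refl_app, neg_neg]; linarith
      · simp only [refl_app, neg_neg]
        rw [← hf₂1 _ (hpos r le_rfl)]; linarith
    obtain ⟨g', ψ', χ', -, -, -, h4, h5, -⟩ := right_ext (f := refl f) (by
      intro B
      obtain ⟨x, hx, hx'⟩ := hleft (-B - 1)
      refine ⟨-x, by linarith, ?_⟩
      rw [refl_app, neg_neg]
      intro hcon
      apply hx'
      linarith) hV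
    refine ⟨refl g', refl ψ', refl χ', ?_, ?_⟩
    · intro x
      simp only [refl_app, neg_neg]
      rw [h4, M_neg]
    · intro x
      simp only [refl_app, neg_neg]
      have h7 : f (-g' (-x)) = - (refl f (g' (-x))) := by rw [refl_app, neg_neg]
      rw [h7, neg_neg, h5, M_neg]

/-- elements with unbounded support above are products of two reversible elements -/
lemma two_of_right {f : D} (hf : ∀ B : ℝ, ∃ x, B < x ∧ f x ≠ x) :
    ∃ g₁ g₂ : D, Reversible g₁ ∧ Reversible g₂ ∧ f = g₁ * g₂ := by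
  obtain ⟨g, ψ, χ, h1, h2⟩ := sol_right hf
  refine ⟨χ⁻¹ * M * χ, (ψ⁻¹ * M * ψ)⁻¹, reversible_conj χ, (reversible_conj ψ).inv, ?_⟩
  have hg : ψ⁻¹ * M * ψ = g := dext fun x => by
    apply dinj ψ
    rw [mul_app, mul_app, self_inv, h1]
  have hk : χ⁻¹ * M * χ = f * g := dext fun x => by
    apply dinj χ
    rw [mul_app, mul_app, self_inv, mul_app, h2]
  rw [hg, hk]; group

/-- **Theorem A.** -/
theorem two_of_unbounded {f : D} (hf : ∀ B : ℝ, ∃ x, B < |x| ∧ f x ≠ x) :
    ∃ g₁ g₂ : D, Reversible g₁ ∧ Reversible g₂ ∧ f = g₁ * g₂ := by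
  by_cases h : ∀ B : ℝ, ∃ x, B < x ∧ f x ≠ x
  · exact two_of_right h
  · push Not at h
    obtain ⟨B₀, hB₀⟩ := h
    obtain ⟨g₁, g₂, h1, h2, h3⟩ := two_of_right (f := refl f) (by
      intro B
      obtain ⟨x, hx, hx'⟩ := hf (max B B₀)
      have hneg : x ≤ B₀ := by
        by_contra hcon
        push Not at hcon
        exact hx' (hB₀ x hcon)
      have hx2 : B < |x| := (le_max_left _ _).trans_lt hx
      have hx3 : B₀ < |x| := (le_max_right _ _).trans_lt hx
      have hxneg : x < 0 := by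
        by_contra hcon
        push Not at hcon
        rw [abs_of_nonneg hcon] at hx3
        linarith
      rw [abs_of_neg hxneg] at hx2
      refine ⟨-x, hx2, ?_⟩
      rw [refl_app, neg_neg]
      intro hcon
      apply hx'
      linarith)
    refine ⟨refl g₁, refl g₂, h1.refl, h2.refl, ?_⟩
    rw [← refl_mul, ← h3, refl_refl]

/-- **Theorem B.** -/
theorem three (f : D) :
    ∃ g₁ g₂ g₃ : D, Reversible g₁ ∧ Reversible g₂ ∧ Reversible g₃ ∧ f = g₁ * g₂ * g₃ := by
  by_cases hf : ∀ B : ℝ, ∃ x, B < |x| ∧ f x ≠ x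
  · obtain ⟨g₁, g₂, h1, h2, h3⟩ := two_of_unbounded hf
    exact ⟨g₁, g₂, 1, h1, h2, ⟨1, by simp⟩, by rw [mul_one]; exact h3⟩
  · push Not at hf
    obtain ⟨B₀, hB₀⟩ := hf
    have hM : Reversible M := ⟨Tr, M_rev⟩
    obtain ⟨g₂, g₃, h1, h2, h3⟩ := two_of_unbounded (f := M⁻¹ * f) (by
      intro B
      obtain ⟨n, hn⟩ := exists_nat_gt (max B B₀)
      have hx : max B B₀ < 2 * (n : ℝ) + 1 / 2 := by
        have : (0 : ℝ) ≤ n := Nat.cast_nonneg n
        linarith
      refine ⟨2 * (n : ℝ) + 1 / 2, ?_, ?_⟩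
      · rw [abs_of_pos (by positivity)]
        exact (le_max_left _ _).trans_lt hx
      · rw [mul_app, hB₀ _ (by rw [abs_of_pos (by positivity)]; exact (le_max_right _ _).trans_lt hx)]
        intro hcon
        have h4 := congrArg M hcon
        rw [self_inv] at h4
        have h5 := M_gt_of (j := (n : ℤ)) (x := 2 * (n : ℝ) + 1 / 2) (by push_cast; linarith)
          (by push_cast; linarith)
        rw [← h4] at h5
        exact lt_irrefl _ h5)
    refine ⟨M, g₂, g₃, hM, h1, h2, ?_⟩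
    rw [mul_assoc, ← h3]; group

end Pool.Agent.R629.Rev
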